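import Pool.Agent.H6.CF.Final

/-!
# Flat planes which separate along lines which are not periodic

Let `X` be a CAT(0) cube complex, given by its 1-skeleton, a median graph, and let `G` act
geometrically on `X`.  The flat planes considered here are the planes tiled by unit squares, i.e. the
isometric embeddings `f` of the grid `ℤ × ℤ` in the median graph, with convex image; if `X` has
dimension at most two all planes tiled by unit squares are of this kind.  The limit flats of `f` are
the pointwise limits of the planes `z ↦ g • f (z + b)`.

Theorem: suppose that `G` has no subgroup `ℤ²` and let `f` be a flat plane with convex image.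

(1) There are limit flats `h₁` and `h₂` of `f`, which are also limit flats of each other, and which
meet exactly in the half-plane `y ≤ 0`, such that the line `y = 0` is *not periodic*: no element of
`G` acts on it as a nontrivial translation.

(2) If a row of `f` is periodic then all rows of `f` are periodic, only finitely many rows have a
period at most `N`, for every `N`, and for every `D` the plane `f` meets one of its translates exactly
in a horizontal strip `-m ≤ y ≤ n` of finite height, `m, n ≥ D`.

(1) can be applied to `f` composed with the symmetries of the grid, so there are nonperiodic lines of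
separation parallel to both directions of `f`, on both sides.  So `G` contains `ℤ²` if `X` contains a
convex flat plane `f` such that all the lines along which two limit flats of `f` separate above are
periodic.

Idea of the proof.

* If infinitely many rows of a flat are translated by elements of `G` by at most `N` then infinitely
  many of them are equivalent under elements of the coarse stabiliser of one of them, `F` say.  Now
  `F` is convex with a cofinite cyclic group, so `G` contains `ℤ²` (by the theorem on commensurators of
  convex cocompact subgroups, `Commensurators`).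
* A closed invariant family of periodic lines has bounded periods: otherwise there are lines of the
  family which agree with a periodic line `l` of the family on longer and longer segments and then
  leave it; translated back by powers of the period they give a line of the family which is
  asymptotic to `l` but different, and it cannot be periodic.
* Let the row `0` of a flat `h` be translated by `g`.  Since a strip over the row is determined by one
  vertical segment, for every `D` some power `g ^ J` translates the rows `-D, …, D`; let `n D ≥ D` be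
  the height at which `h` and `g ^ J h` separate.  Suppose that all lines of separation of a closed
  invariant family `L ∋ h` are periodic, hence of bounded period.  By compactness the row `n D` of `h`
  is locally periodic in larger and larger windows for `D → ∞`, and as the stabilisers are bounded it
  is periodic with a period which does not depend on `D`, if `D` is large.  So infinitely many rows of
  `h` have bounded periods, and `G` contains `ℤ²`.
-/

set_option autoImplicit false

namespace Pool.Agent.Results.MP_140312_al.AperiodicBranching

open Function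

/-- Median graphs: connected graphs in which any three vertices `a`, `b`, `c` have exactly one median
`m`, a vertex which is on geodesics between any two of them.  These are exactly the 1-skeletons of
the CAT(0) cube complexes. -/
def IsMedian {V : Type*} (Γ : SimpleGraph V) : Prop :=
  Γ.Connected ∧ ∀ a b c : V, ∃! m : V,
    Γ.dist a m + Γ.dist m b = Γ.dist a b ∧ Γ.dist b m + Γ.dist m c = Γ.dist b c ∧
      Γ.dist a m + Γ.dist m c = Γ.dist a c

/-- The graph contains no 3-cube: for the 1-skeleton of a CAT(0) cube complex this means that the
dimension of the complex is at most two. -/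
def NoThreeCube {V : Type*} (Γ : SimpleGraph V) : Prop :=
  ¬ ∃ c : (Fin 3 → Bool) → V, Injective c ∧ ∀ s i, Γ.Adj (c s) (c (update s i (!s i)))

/-- The set `F` of vertices is convex: it contains all vertices on geodesics between its
vertices. -/
def IsConvex {V : Type*} (Γ : SimpleGraph V) (F : Set V) : Prop :=
  ∀ x ∈ F, ∀ y ∈ F, ∀ m, Γ.dist x m + Γ.dist m y = Γ.dist x y → m ∈ F

/-- Flat planes: isometric embeddings of the grid `ℤ × ℤ` in the graph. -/
def IsFlat {V : Type*} (Γ : SimpleGraph V) (f : ℤ × ℤ → V) : Prop :=
  ∀ z w : ℤ × ℤ, (Γ.dist (f z) (f w) : ℤ) = |z.1 - w.1| + |z.2 - w.2|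

/-- The limit flats of `f`: the maps which agree on every finite square of the grid with one of the
planes `z ↦ g • f (z + b)`, where `g` is in `G` and `b` is in `ℤ × ℤ`. -/
def LimitFlats (G : Type*) {V : Type*} [Group G] [MulAction G V] (f : ℤ × ℤ → V) :
    Set (ℤ × ℤ → V) :=
  {h | ∀ R : ℕ, ∃ (g : G) (b : ℤ × ℤ), ∀ z : ℤ × ℤ, |z.1| ≤ R → |z.2| ≤ R → h z = g • f (z + b)}

/-- The line `l` is translated by some element of `G` by `τ`. -/
def HasPeriod (G : Type*) {V : Type*} [Group G] [MulAction G V] (l : ℤ → V) (τ : ℤ) : Prop :=
  ∃ g : G, ∀ x, g • l x = l (x + τ)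

/-- The line `l` is periodic: some element of `G` acts on it as a nontrivial translation. -/
def Periodic (G : Type*) {V : Type*} [Group G] [MulAction G V] (l : ℤ → V) : Prop :=
  ∃ τ : ℤ, 0 < τ ∧ HasPeriod G l τ

/-- Let `Γ` be a locally finite median graph, i.e. the 1-skeleton of a locally finite CAT(0) cube
complex.  Let `G` act on `Γ` by automorphisms with finite stabilisers and finitely many orbits of
vertices, and suppose that `G` has no subgroup isomorphic to `ℤ²`.  Let `f` be a flat plane; suppose
that the image of `f` is convex or that `Γ` contains no 3-cube.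
(1) There are limit flats `h₁`, `h₂` of `f`, which are limit flats of each other, meet exactly in the
half-plane `y ≤ 0`, where they agree, and whose common line `y = 0` is not periodic.
(2) If the row `0` of `f` is periodic then all rows of `f` are periodic, for every `N` only finitely
many rows have a period `τ ≤ N`, and for every `D` the plane `f` meets one of its horizontal
translates exactly in a strip `-m ≤ y ≤ n` with finite `m, n ≥ D`. -/
theorem result {V : Type*} {Γ : SimpleGraph V} (hΓ : IsMedian Γ)
    (hfin : ∀ v, (Γ.neighborSet v).Finite)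
    {G : Type*} [Group G] [MulAction G V] (haut : ∀ (g : G) (a b : V), Γ.Adj a b → Γ.Adj (g • a) (g • b))
    (hstab : ∀ v : V, {g : G | g • v = v}.Finite)
    (horb : ∃ K : Set V, K.Finite ∧ ∀ v : V, ∃ g : G, g • v ∈ K)
    (hZ : ¬ ∃ φ : Multiplicative (ℤ × ℤ) →* G, Injective φ)
    (f : ℤ × ℤ → V) (hf : IsFlat Γ f) (hc : IsConvex Γ (Set.range f) ∨ NoThreeCube Γ) :
    (∃ h₁ h₂ : ℤ × ℤ → V, IsFlat Γ h₁ ∧ IsFlat Γ h₂ ∧
      h₁ ∈ LimitFlats G f ∧ h₂ ∈ LimitFlats G f ∧ h₁ ∈ LimitFlats G h₂ ∧ h₂ ∈ LimitFlats G h₁ ∧
      (∀ z w, h₁ z = h₂ w ↔ z = w ∧ z.2 ≤ 0) ∧ ¬ Periodic G (fun x => h₁ (x, 0))) ∧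
    (Periodic G (fun x => f (x, 0)) →
      (∀ y, Periodic G (fun x => f (x, y))) ∧
      (∀ N : ℕ, {y : ℤ | ∃ τ : ℤ, 0 < τ ∧ τ ≤ N ∧ HasPeriod G (fun x => f (x, y)) τ}.Finite) ∧
      ∀ D : ℕ, ∃ (g : G) (b : ℤ) (m n : ℕ), D ≤ m ∧ D ≤ n ∧
        ∀ z w : ℤ × ℤ, f z = g • f (w + (b, 0)) ↔ z = w ∧ -(m : ℤ) ≤ z.2 ∧ z.2 ≤ n) := by
  have hA : Pool.Agent.H6.CF.Act G Γ := ⟨hΓ, hfin, haut, hstab, horb⟩
  have hc' : Pool.Agent.H6.CF.Conv Γ f := by
    rcases hc with hc | h3
    · exact hc
    · exact Pool.Agent.H6.CF.conv_of_two hΓ h3 hf
  have hO : ∀ h : ℤ × ℤ → V, Pool.Agent.H6.CF.Orb G h ⊆ LimitFlats G h := by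
    intro h k hk R
    obtain ⟨g, b, hg⟩ := hk R
    refine ⟨g, b, fun z h1 h2 => hg z ?_ ?_⟩
    · rw [Int.abs_eq_natAbs] at h1; omega
    · rw [Int.abs_eq_natAbs] at h2; omega
  constructor
  · obtain ⟨h, k, h1, h2, h4, h5, h6, h7⟩ := Pool.Agent.H6.CF.final hA hZ hf hc'
    exact ⟨h, k, Pool.Agent.H6.CF.Orb.flat hA hf h1, Pool.Agent.H6.CF.Orb.flat hA hf h2,
      hO _ h1, hO _ h2, hO _ h4, hO _ h5, h6, h7⟩
  · rintro ⟨τ, hτ, g, hg⟩
    refine ⟨Pool.Agent.H6.CF.periodic_rows hA hf hτ hg, fun N => ?_,
      Pool.Agent.H6.CF.wide_strips hA hZ hf hc' hτ hg⟩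
    refine (Pool.Agent.H6.CF.many_rows hA hZ hf hc' N).subset ?_
    rintro y ⟨τ', h1, h2, g', hg'⟩
    exact ⟨g', τ', h1, h2, hg'⟩

end Pool.Agent.Results.MP_140312_al.AperiodicBranching
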