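import Pool.Agent.H6.CF.Asym

/-!
# The number of blocks of a flat plane in a group without `ℤ²`

Let `X` be a CAT(0) cube complex, given by its 1-skeleton, a median graph, and let the torsion-free
group `G` act geometrically on `X`.  The flat planes considered here are the planes tiled by unit
squares, i.e. the isometric embeddings `f` of the grid `ℤ × ℤ` in the median graph, with convex image;
if `X` has dimension at most two all planes tiled by unit squares are of this kind.  Let
`N (m, n)` be the number of the blocks with `(m + 1) × (n + 1)` vertices of `f`, up to the action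
of `G`.

Theorem: suppose that `G` has no subgroup `ℤ²`.  Then for all `m`, `n`, `d`, `e`

  `(m + 1) (n + 1) + d (m - 1 - N (1, d)) + e (n - 1 - N (e, 1)) ≤ N (m, n)`

(differences are replaced by `0` if they are negative).  So the plane has more than linearly many
horizontal words: there is a constant `c > 0`, which depends only on the action of `G` on `X`,
such that

  `m n + c (m log m + n log n) ≤ N (m, n)`;

and if the numbers `N (n, 0)` and `N (0, n)` of horizontal and of vertical words of length `n` are
`O (n ^ s)` and `O (n ^ t)` then `s ≥ 1 + 1 / t`; in particular `s` and `t` are not both smaller than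
the golden ratio `1.618...`.

Idea of the proof.

* There are limit flats `h`, `k` of `f` which agree exactly on the half-plane `y ≤ 0` and whose
  common row `y = 0` is not periodic (`AperiodicBranching`).  So every block `B` of `h` which hangs
  from row `0` has two extensions upwards, and they are not equivalent since the action is free:
  `N (m, n + 1) - N (m, n)` is at least the number `C (m, n)` of classes of blocks of size `(m, n)`
  which hang from row `0` of `h`.
* `C (m + 1, n) ≥ C (m, n) + 1`: otherwise (Morse and Hedlund) every block of width `m` which hangs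
  from row `0` determines the next columns on both sides, and two equivalent blocks give a
  translation of row `0`.
* `C (0, n) ≥ e + 1` if `n > N (e, 1)`: otherwise two of `e + 1` consecutive columns of height `n` are
  equivalent, under `g` say, and two of the `n` blocks of height one which are bounded by these columns
  are equivalent, under `c` say.  Then `c` and `g` commute, since the action is free, and generate
  `ℤ²`.
* So `N (m, n) ≥ N (m, 0) + n (m + 1) + e (n - 1 - N (e, 1))`, and, exchanging the directions,
  `N (m, 0) ≥ 1 + m + d (m - 1 - N (1, d))`.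
-/

set_option autoImplicit false

namespace Pool.Agent.Results.MP_140312_al.BlockComplexity

open Function

/-- Median graphs: connected graphs in which any three vertices `a`, `b`, `c` have exactly one median
`m`, a vertex which is on geodesics between any two of them.  These are exactly the 1-skeletons of
the CAT(0) cube complexes. -/
def IsMedian {V : Type*} (Γ : SimpleGraph V) : Prop :=
  Γ.Connected ∧ ∀ a b c : V, ∃! m : V,
    Γ.dist a m + Γ.dist m b = Γ.dist a b ∧ Γ.dist b m + Γ.dist m c = Γ.dist b c ∧
      Γ.dist a m + Γ.dist m c = Γ.dist a c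

/-- The graph contains no 3-cube: for the 1-skeleton of a CAT(0) cube complex this means that the
dimension of the complex is at most two. -/
def NoThreeCube {V : Type*} (Γ : SimpleGraph V) : Prop :=
  ¬ ∃ c : (Fin 3 → Bool) → V, Injective c ∧ ∀ s i, Γ.Adj (c s) (c (update s i (!s i)))

/-- The set `F` of vertices is convex: it contains all vertices on geodesics between its
vertices. -/
def IsConvex {V : Type*} (Γ : SimpleGraph V) (F : Set V) : Prop :=
  ∀ x ∈ F, ∀ y ∈ F, ∀ m, Γ.dist x m + Γ.dist m y = Γ.dist x y → m ∈ F

/-- Flat planes: isometric embeddings `f` of the grid `ℤ × ℤ` in the graph, whose image is convex or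
which are in a graph without 3-cubes (then the image is convex as well). -/
def IsFlat {V : Type*} (Γ : SimpleGraph V) (f : ℤ × ℤ → V) : Prop :=
  (∀ z w : ℤ × ℤ, (Γ.dist (f z) (f w) : ℤ) = |z.1 - w.1| + |z.2 - w.2|) ∧
    (IsConvex Γ (Set.range f) ∨ NoThreeCube Γ)

/-- The blocks with `(m + 1) × (n + 1)` vertices of `f` with lower left corners `a` and `b` are
equivalent: some element of `G` maps the first block to the second. -/
def SameBlock (G : Type*) {V : Type*} [Group G] [MulAction G V] (f : ℤ × ℤ → V) (m n : ℕ)
    (a b : ℤ × ℤ) : Prop :=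
  ∃ g : G, ∀ i j : ℕ, i ≤ m → j ≤ n → g • f (a.1 + i, a.2 + j) = f (b.1 + i, b.2 + j)

/-- The number of classes of blocks with `(m + 1) × (n + 1)` vertices of `f`. -/
noncomputable def blocks (G : Type*) {V : Type*} [Group G] [MulAction G V] (f : ℤ × ℤ → V)
    (m n : ℕ) : ℕ := Nat.card (Quot (SameBlock G f m n))

open Pool.Agent.H6.CF in
theorem blocks_eq {G : Type*} {V : Type*} [Group G] [MulAction G V] (f : ℤ × ℤ → V) (m n : ℕ) :
    blocks G f m n = (Bl G m n f).ncard := by
  have hinj : Injective (Quot.lift (fun a => cl G m n f a) (fun a b (h : SameBlock G f m n a b) =>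
      cl_eq.2 h)) := by
    intro p q
    induction p using Quot.ind with
    | mk a =>
      induction q using Quot.ind with
      | mk b => exact fun h => Quot.sound (cl_eq.1 h)
  unfold blocks
  rw [Nat.card_congr (Equiv.ofInjective _ hinj), Nat.card_coe_set_eq]
  congr 1
  ext q
  constructor
  · rintro ⟨p, rfl⟩
    induction p using Quot.ind with
    | mk a => exact ⟨a, rfl⟩
  · rintro ⟨a, rfl⟩
    exact ⟨Quot.mk _ a, rfl⟩

/-- Let `Γ` be a locally finite median graph, i.e. the 1-skeleton of a locally finite CAT(0) cube
complex.  Let the torsion-free group `G` act on `Γ` by automorphisms with finite stabilisers and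
finitely many orbits of vertices, and suppose that `G` has no subgroup isomorphic to `ℤ²`.  Let
`blocks G f m n` be the number of classes of blocks with `(m + 1) × (n + 1)` vertices of the flat
plane `f`.
(1) `(m + 1) (n + 1) + d (m - 1 - blocks G f 1 d) + e (n - 1 - blocks G f e 1) ≤ blocks G f m n` for all
flat planes `f` and all `m`, `n`, `d`, `e` (with truncated subtraction).
(2) There is `c > 0` with `m n + c (m log m + n log n) ≤ blocks G f m n` for all flat planes `f` and all
`m`, `n`.
(3) If for a flat plane `f` the numbers of horizontal words and of vertical words with `n + 1` vertices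
are at most `C (n + 1) ^ s` and `C (n + 1) ^ t` for all `n`, then `1 + 1 / t ≤ s`. -/
theorem result {V : Type*} {Γ : SimpleGraph V} (hΓ : IsMedian Γ)
    (hfin : ∀ v, (Γ.neighborSet v).Finite)
    {G : Type*} [Group G] [MulAction G V] (haut : ∀ (g : G) (a b : V), Γ.Adj a b → Γ.Adj (g • a) (g • b))
    (hstab : ∀ v : V, {g : G | g • v = v}.Finite)
    (horb : ∃ K : Set V, K.Finite ∧ ∀ v : V, ∃ g : G, g • v ∈ K)
    (htf : ∀ g : G, IsOfFinOrder g → g = 1)
    (hZ : ¬ ∃ φ : Multiplicative (ℤ × ℤ) →* G, Injective φ) :
    (∀ f : ℤ × ℤ → V, IsFlat Γ f → ∀ m n d e : ℕ,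
      (m + 1) * (n + 1) + d * (m - 1 - blocks G f 1 d) + e * (n - 1 - blocks G f e 1) ≤
        blocks G f m n) ∧
    (∃ c : ℝ, 0 < c ∧ ∀ f : ℤ × ℤ → V, IsFlat Γ f → ∀ m n : ℕ,
      m * n + c * (m * Real.log m + n * Real.log n) ≤ (blocks G f m n : ℝ)) ∧
    (∀ f : ℤ × ℤ → V, IsFlat Γ f → ∀ C s t : ℝ, 0 < t →
      (∀ n : ℕ, (blocks G f n 0 : ℝ) ≤ C * (n + 1) ^ s ∧ (blocks G f 0 n : ℝ) ≤ C * (n + 1) ^ t) →
      1 + 1 / t ≤ s) := by
  have hA : Pool.Agent.H6.CF.Act G Γ := ⟨hΓ, hfin, haut, hstab, horb⟩
  have ht : Pool.Agent.H6.CF.TFree G := fun g n hn h =>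
    htf g (isOfFinOrder_iff_pow_eq_one.2 ⟨n, hn, h⟩)
  have hc : ∀ f : ℤ × ℤ → V, IsFlat Γ f → Pool.Agent.H6.CF.Conv Γ f := by
    rintro f ⟨hf, hc | h3⟩
    · exact hc
    · exact Pool.Agent.H6.CF.conv_of_two hΓ h3 hf
  refine ⟨fun f hf m n d e => ?_, ?_, fun f hf C s t ht0 h => ?_⟩
  · rw [blocks_eq, blocks_eq, blocks_eq]
    exact Pool.Agent.H6.CF.grow hA ht hZ hf.1 (hc f hf) d e m n
  · obtain ⟨c, hc0, h⟩ := Pool.Agent.H6.CF.grow_log hA ht hZ
    refine ⟨c, hc0, fun f hf m n => ?_⟩
    rw [blocks_eq]
    exact h f hf.1 (hc f hf) m n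
  · refine Pool.Agent.H6.CF.grow_exp hA ht hZ hf.1 (hc f hf) ht0 (C := C) (fun n => ?_) fun n => ?_
    · rw [← blocks_eq]
      exact (h n).1
    · rw [← blocks_eq]
      exact (h n).2

end Pool.Agent.Results.MP_140312_al.BlockComplexity
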