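import Pool.Agent.H6.CM.Main

/-!
# Commensurators of convex cocompact subgroups of cubulated groups, and `ℤ²`

The 1-skeletons of the locally finite CAT(0) cube complexes are the locally finite median graphs
(Chepoi, Gerasimov, Roller), and a geometric action on the complex is an action by automorphisms of
the graph with finite stabilisers and finitely many orbits of vertices.

Theorem: let `G` act geometrically on a CAT(0) cube complex and let `K` be an infinite convex
cocompact subgroup.  Then `K` has finite index in its commensurator unless there are commuting
elements `g` in the commensurator and `u` in `K` which generate `ℤ²`, where no nontrivial power of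
`g` is in `K`.

In particular, if `G` contains no `ℤ²`, then every infinite convex cocompact subgroup has finite
index in its commensurator.  (In a hyperbolic group all infinite quasiconvex subgroups have this
property, so this is a necessary condition for a positive answer to Q1; in the other direction it is
a criterion for the existence of `ℤ²`.  For the stabiliser of one factor in a group acting
geometrically on a product of two unbounded complexes the existence of `ℤ²` is known by work of
Caprace and Sageev.)

Idea of the proof.  Let `F` be convex, infinite and `K`-cofinite.  The commensurator `C` of `K`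
consists of the elements `g` such that `g F` has finite Hausdorff distance from `F`; suppose there
are infinitely many such translates.

(1) Suppose that some `h ∈ C` skewers a half-space `W` disjoint from `F` whose `K`-orbit is finite:
`h W ⊂ W`.  Cutting `F` along half-spaces (which lowers the degrees of the vertices of `F`) and
changing `h`, we may assume that any half-space `A` which crosses all `c F`, `c ∈ C`, has a finite
trace on `F`; then `A` crosses only finitely many other half-spaces of this kind.  Some `k ∈ K`
skewers such a half-space `U`.  As `h` cannot carry the attracting end of `k` to the repelling one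
and do the same with `h²`, one of the elements `g = k ^ n h` or `g = k ^ n h²` skewers a translate
of `U` and, if `n` is suitable, still skewers `W`.  The gates `p j` of a vertex in the sets
`g ^ j F` are moved by `g` by a bounded amount, and the pigeonhole principle gives an element `z`
which commutes with `g`, carries `F` to `g ^ m F` with `m > 0` and does not move `p j` in the
directions of `F`.  Then `g` and `z g ^ (-m)` generate `ℤ²`, and the latter preserves `F`.

(2) If a finitely generated extension of `K` in `C` has infinitely many translates of `F`, then the
half-spaces which separate `F` from a far translate are in finitely many orbits, pairwise crossing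
half-spaces are bounded in number, and an element as in (1) exists.

(3) Otherwise all finitely generated subgroups of the group `L` of those elements of `C` which do
not move a vertex of `F` in the directions of `F` are finite, but `L` is infinite.  This is
impossible as the orders of the finite subgroups of `G` are bounded.
-/

set_option autoImplicit false

namespace Pool.Agent.Results.MP_140312_al.Commensurators

open Pool.Agent.H6.CM

/-- The set `F` of vertices is convex: it contains all vertices on geodesics between its
vertices. -/
def IsConvex {V : Type*} (Γ : SimpleGraph V) (F : Set V) : Prop :=
  ∀ x ∈ F, ∀ y ∈ F, ∀ m, Γ.dist x m + Γ.dist m y = Γ.dist x y → m ∈ F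

/-- The subgroup `K` is convex cocompact: it leaves invariant some nonempty convex set of vertices
and acts on it with finitely many orbits. -/
def ConvexCocompact {V : Type*} (Γ : SimpleGraph V) {G : Type*} [Group G] [MulAction G V]
    (K : Subgroup G) : Prop :=
  ∃ F : Set V, F.Nonempty ∧ IsConvex Γ F ∧ (∀ k ∈ K, ∀ x ∈ F, k • x ∈ F) ∧
    ∃ C : Set V, C.Finite ∧ ∀ x ∈ F, ∃ k ∈ K, k • x ∈ C

/-- Let `Γ` be a locally finite median graph (the 1-skeleton of a CAT(0) cube complex) and let `G`
act on it by automorphisms, with finite stabilisers and finitely many orbits.  Let `K` be an infinite
convex cocompact subgroup of `G`.  Then `K` has infinite index in its commensurator if and only if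
there are commuting elements `g` of the commensurator and `u` of `K` which are a basis of a subgroup
isomorphic to `ℤ²`, such that no nontrivial power of `g` is in `K`. -/
theorem result {V : Type*} (Γ : SimpleGraph V) (hΓ : IsMedian Γ)
    (hloc : ∀ v : V, (Γ.neighborSet v).Finite) {G : Type*} [Group G] [MulAction G V]
    (hadj : ∀ (g : G) (v w : V), Γ.Adj v w → Γ.Adj (g • v) (g • w))
    (hstab : ∀ v : V, Finite (MulAction.stabilizer G v))
    (hcc : ∃ B : Set V, B.Finite ∧ ∀ v : V, ∃ g : G, g • v ∈ B)
    (K : Subgroup G) (hK : Infinite K) (hKc : ConvexCocompact Γ K) :
    ¬ (K.subgroupOf (Subgroup.Commensurable.commensurator K)).FiniteIndex ↔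
      ∃ g ∈ Subgroup.Commensurable.commensurator K, ∃ u ∈ K, Commute g u ∧
        (∀ a b : ℤ, g ^ a * u ^ b = 1 → a = 0 ∧ b = 0) ∧ ∀ n : ℤ, g ^ n ∈ K → n = 0 := by
  obtain ⟨B, hB, hcov⟩ := hcc
  have hG : Geo Γ G B :=
    ⟨hΓ, hloc, hadj, fun v => Set.toFinite (MulAction.stabilizer G v : Set G), hB, hcov⟩
  obtain ⟨F, hne, hconv, hinv, hcof⟩ := hKc
  constructor
  · intro h
    exact (main hG ⟨hconv, hinv, hcof⟩ hne (Set.infinite_coe_iff.1 hK)).resolve_left h
  · rintro ⟨g, hg, u, -, -, -, h⟩ hfin
    obtain ⟨n, hn, -, hnK⟩ := Subgroup.exists_pow_mem_of_index_ne_zero hfin.index_ne_zero
      (⟨g, hg⟩ : Subgroup.Commensurable.commensurator K)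
    have h1 : g ^ (n : ℤ) ∈ K := by
      rw [Subgroup.mem_subgroupOf] at hnK
      rw [zpow_natCast]
      exact hnK
    have := h n h1
    omega

end Pool.Agent.Results.MP_140312_al.Commensurators
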