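import Pool.Agent.H6.TP.Main
import Pool.Agent.H6.TP.Hyp

/-!
# Square complexes without products of tripods, and links without `K_{3,3}`

Let `X` be a CAT(0) cube complex, given by its 1-skeleton, a median graph `Γ`, and let `G` act
geometrically on `X`.  The link of a vertex `p` is the graph whose vertices are the neighbours of `p`; two
of them are adjacent if they span a square with `p`.

Theorem.

(1) Suppose that `X` has dimension at most two.  Then `G` contains `ℤ²`, or `X` (equivalently, `G`)
is hyperbolic, or `X` contains an isometrically embedded product of two infinite tripods.  (An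
infinite tripod consists of three rays with a common origin.)

(2) In particular, if `X` has dimension at most two and no link of a vertex of `X` contains the complete
bipartite graph `K_{3,3}`, for instance if the links are planar graphs, then `G` contains `ℤ²` or is
hyperbolic: the answer to the question is yes for these complexes.

(3) In any dimension: if no link of a vertex contains `K_{3,3}` and `X` contains a plane tiled by squares
with convex image then `G` contains `ℤ²`.

Idea of the proof.  Suppose that `G` does not contain `ℤ²` and let `f` be a flat plane with convex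
image.  By `AperiodicBranching` there are limit flats `h`, `k` of `f` which agree exactly on the
half-plane `y ≤ 0`, such that the line `y = 0` is not periodic.  So at every vertex `x` of this line there
is an infinite vertical tripod `t_x`: the columns of `h` and `k`.  For every `n` consider the graph of all
tripods with legs of length `n` in `X`, where tripods which are opposite sides of a product with an edge
are adjacent.  A neighbour of a tripod is determined by any of its vertices.  If the tripods `t_x`,
`x ∈ ℤ`, cut to the length `n`, form a line in this graph which no path without backtracking of length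
`n` leaves, then an element of `G` which maps one of them to another one preserves the line; so some
element acts as a translation on the line `y = 0`, a contradiction.  So for every `n` there is a branch of
length `n`, i.e. a product of two tripods with legs of length `n`, and a limit is a product of two
infinite tripods.  Its centre has a link which contains `K_{3,3}`.  Finally, a median graph without flats
and with a cocompact action is hyperbolic.
-/

set_option autoImplicit false

namespace Pool.Agent.Results.MP_140312_al.TripodProducts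

open Function

/-- Median graphs: connected graphs in which any three vertices `a`, `b`, `c` have exactly one median
`m`, a vertex which is on geodesics between any two of them.  These are exactly the 1-skeletons of
the CAT(0) cube complexes. -/
def IsMedian {V : Type*} (Γ : SimpleGraph V) : Prop :=
  Γ.Connected ∧ ∀ a b c : V, ∃! m : V,
    Γ.dist a m + Γ.dist m b = Γ.dist a b ∧ Γ.dist b m + Γ.dist m c = Γ.dist b c ∧
      Γ.dist a m + Γ.dist m c = Γ.dist a c

/-- The graph contains no 3-cube: for the 1-skeleton of a CAT(0) cube complex this means that the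
dimension of the complex is at most two. -/
def NoThreeCube {V : Type*} (Γ : SimpleGraph V) : Prop :=
  ¬ ∃ c : (Fin 3 → Bool) → V, Injective c ∧ ∀ s i, Γ.Adj (c s) (c (update s i (!s i)))

/-- The set `F` of vertices is convex: it contains all vertices on geodesics between its
vertices. -/
def IsConvex {V : Type*} (Γ : SimpleGraph V) (F : Set V) : Prop :=
  ∀ x ∈ F, ∀ y ∈ F, ∀ m, Γ.dist x m + Γ.dist m y = Γ.dist x y → m ∈ F

/-- Flat planes: isometric embeddings of the grid `ℤ × ℤ` in the graph. -/
def IsFlat {V : Type*} (Γ : SimpleGraph V) (f : ℤ × ℤ → V) : Prop :=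
  ∀ z w : ℤ × ℤ, (Γ.dist (f z) (f w) : ℤ) = |z.1 - w.1| + |z.2 - w.2|

/-- Slim triangles: every vertex of a side of a geodesic triangle is at distance at most `δ` from
one of the two other sides. -/
def SlimTriangles {V : Type*} (Γ : SimpleGraph V) (δ : ℕ) : Prop :=
  ∀ (x y z : V) (p : Γ.Walk x y) (q : Γ.Walk y z) (r : Γ.Walk x z), p.length = Γ.dist x y →
    q.length = Γ.dist y z → r.length = Γ.dist x z →
    ∀ u ∈ p.support, ∃ v, (v ∈ q.support ∨ v ∈ r.support) ∧ Γ.dist u v ≤ δ

/-- The link of the vertex `p`: its vertices are the neighbours of `p`, and two of them are adjacent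
if they are different and have a common neighbour `q ≠ p`, i.e. if they span a square with `p`. -/
def link {V : Type*} (Γ : SimpleGraph V) (p : V) : SimpleGraph (Γ.neighborSet p) where
  Adj a b := a ≠ b ∧ ∃ q, q ≠ p ∧ Γ.Adj a q ∧ Γ.Adj b q
  symm := ⟨fun _ _ ⟨h, q, h1, h2, h3⟩ => ⟨h.symm, q, h1, h3, h2⟩⟩
  loopless := ⟨fun _ h => h.1 rfl⟩

/-- No link of a vertex contains the complete bipartite graph `K_{3,3}` as a subgraph. -/
def NoK33 {V : Type*} (Γ : SimpleGraph V) : Prop :=
  ∀ p, ¬ (completeBipartiteGraph (Fin 3) (Fin 3)).IsContained (link Γ p)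

/-- The distance of two points of the infinite tripod; `(i, m)` is the point at distance `m` from the
centre on the leg `i`. -/
def tripodDist (a b : Fin 3 × ℕ) : ℤ := if a.1 = b.1 then |(a.2 : ℤ) - b.2| else a.2 + b.2

/-- The graph contains an isometrically embedded product of two infinite tripods. -/
def HasTripodProduct {V : Type*} (Γ : SimpleGraph V) : Prop :=
  ∃ F : Fin 3 × ℕ → Fin 3 × ℕ → V, ∀ a a' b b' : Fin 3 × ℕ,
    (Γ.dist (F a b) (F a' b') : ℤ) = tripodDist a a' + tripodDist b b'

/-- The group contains a subgroup isomorphic to `ℤ²`. -/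
def HasZ2 (G : Type*) [Group G] : Prop := ∃ φ : Multiplicative (ℤ × ℤ) →* G, Injective φ

open Pool.Agent.H6.TP in
/-- The centre of a product of tripods. -/
theorem k33 {V : Type*} {Γ : SimpleGraph V} {F : Fin 3 → ℕ → Fin 3 → ℕ → V} (hF : LT Γ F) :
    (completeBipartiteGraph (Fin 3) (Fin 3)).IsContained (link Γ (F 0 0 0 0)) := by
  have e1 : ∀ i m, F 0 0 i m = F i 0 i m := fun i m => hF.c1 _ _ _ _
  have ha : ∀ i : Fin 3, Γ.Adj (F 0 0 0 0) (F i 1 0 0) := fun i => by
    rw [hF.c1 0 i]
    exact hF.hor i 0 0 0
  have hb : ∀ j : Fin 3, Γ.Adj (F 0 0 0 0) (F 0 0 j 1) := fun j => by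
    rw [hF.c2 0 0 0 j]
    exact hF.ver 0 0 j 0
  have hab : ∀ i j : Fin 3, F i 1 0 0 ≠ F 0 0 j 1 := fun i j => by
    rw [hF.c2 i 1 0 j, hF.c1 0 i j 1]
    exact (hF.ad i 0 j 0).symm
  have hq : ∀ i j : Fin 3, F i 1 j 1 ≠ F 0 0 0 0 := fun i j => by
    rw [hF.c2 0 0 0 j, hF.c1 0 i j 0]
    exact (hF.dg i 0 j 0).symm
  have hqa : ∀ i j : Fin 3, Γ.Adj (F i 1 0 0) (F i 1 j 1) := fun i j => by
    rw [hF.c2 i 1 0 j]
    exact hF.ver i 1 j 0
  have hqb : ∀ i j : Fin 3, Γ.Adj (F 0 0 j 1) (F i 1 j 1) := fun i j => by
    rw [hF.c1 0 i j 1]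
    exact hF.hor i 0 j 1
  refine ⟨⟨⟨fun s => match s with
    | Sum.inl i => ⟨F i 1 0 0, ha i⟩
    | Sum.inr j => ⟨F 0 0 j 1, hb j⟩, ?_⟩, ?_⟩⟩
  · rintro (i | i) (j | j) h
    · simp [completeBipartiteGraph] at h
    · exact ⟨fun e => hab i j (Subtype.ext_iff.1 e), F i 1 j 1, hq i j, hqa i j, hqb i j⟩
    · exact ⟨fun e => hab j i (Subtype.ext_iff.1 e).symm, F j 1 i 1, hq j i, hqb j i, hqa j i⟩
    · simp [completeBipartiteGraph] at h
  · rintro (i | i) (j | j) h
    · have h' : F i 1 0 0 = F j 1 0 0 := Subtype.ext_iff.1 h
      by_contra hne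
      exact hF.h1 i j 0 0 (fun e => hne (by rw [e])) h'
    · exact absurd (Subtype.ext_iff.1 h) (hab i j)
    · exact absurd (Subtype.ext_iff.1 h).symm (hab j i)
    · have h' : F 0 0 i 1 = F 0 0 j 1 := Subtype.ext_iff.1 h
      by_contra hne
      exact hF.v1 0 0 i j (fun e => hne (by rw [e])) h'

/-- Let `Γ` be a locally finite median graph, i.e. the 1-skeleton of a locally finite CAT(0) cube
complex `X`, and let the group `G` act on `Γ` by automorphisms with finite stabilisers and finitely
many orbits of vertices.
(1) If `Γ` contains no 3-cube then `G` contains `ℤ²`, or the geodesic triangles of `Γ` are uniformly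
slim (`G` is hyperbolic), or `Γ` contains an isometrically embedded product of two infinite tripods.
(2) If `Γ` contains no 3-cube and no link of a vertex contains `K_{3,3}` then `G` contains `ℤ²` or the
geodesic triangles of `Γ` are uniformly slim.
(3) If no link of a vertex contains `K_{3,3}` and `Γ` contains a flat plane with convex image then `G`
contains `ℤ²`. -/
theorem result {V : Type*} {Γ : SimpleGraph V} (hΓ : IsMedian Γ)
    (hfin : ∀ v, (Γ.neighborSet v).Finite)
    {G : Type*} [Group G] [MulAction G V] (haut : ∀ (g : G) (a b : V), Γ.Adj a b → Γ.Adj (g • a) (g • b))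
    (hstab : ∀ v : V, {g : G | g • v = v}.Finite)
    (horb : ∃ K : Set V, K.Finite ∧ ∀ v : V, ∃ g : G, g • v ∈ K) :
    (NoThreeCube Γ → HasZ2 G ∨ (∃ δ, SlimTriangles Γ δ) ∨ HasTripodProduct Γ) ∧
    (NoThreeCube Γ → NoK33 Γ → HasZ2 G ∨ ∃ δ, SlimTriangles Γ δ) ∧
    (NoK33 Γ → (∃ f, IsFlat Γ f ∧ IsConvex Γ (Set.range f)) → HasZ2 G) := by
  have hA : Pool.Agent.H6.CF.Act G Γ := ⟨hΓ, hfin, haut, hstab, horb⟩
  have key : NoThreeCube Γ → HasZ2 G ∨ (∃ δ, SlimTriangles Γ δ) ∨
      ∃ F, Pool.Agent.H6.TP.LT Γ F := by
    intro h3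
    by_cases hZ : HasZ2 G
    · exact Or.inl hZ
    by_cases hf : ∃ f, Pool.Agent.H6.CF.IsFlat Γ f
    · obtain ⟨f, hf⟩ := hf
      exact Or.inr (Or.inr (Pool.Agent.H6.TP.main hA hZ hf
        (Pool.Agent.H6.CF.conv_of_two hΓ h3 hf)))
    · exact Or.inr (Or.inl (Pool.Agent.H6.TP.hyp_of_noFlat hA hf))
  refine ⟨fun h3 => ?_, fun h3 hK => ?_, ?_⟩
  · rcases key h3 with h | h | ⟨F, hF⟩
    · exact Or.inl h
    · exact Or.inr (Or.inl h)
    · exact Or.inr (Or.inr ⟨fun a b => F a.1 a.2 b.1 b.2, fun a a' b b' => hF.dist hΓ h3 a a' b b'⟩)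
  · rcases key h3 with h | h | ⟨F, hF⟩
    · exact Or.inl h
    · exact Or.inr h
    · exact absurd (k33 hF) (hK _)
  · rintro hK ⟨f, hf, hc⟩
    by_contra hZ
    obtain ⟨F, hF⟩ := Pool.Agent.H6.TP.main hA hZ hf hc
    exact hK _ (k33 hF)

end Pool.Agent.Results.MP_140312_al.TripodProducts
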